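import Mathlib

/-!
# A good scale of a function of polynomial growth, for all shifts at once
(variant of helper41's Scale.lean)
-/

open Filter

namespace Pool.Agent.Helper85.DivChain

lemma key2_eventually (d δ : ℝ) (hd : 0 < d) (hδ : 0 < δ) : ∀ᶠ x : ℝ in atTop,
    8 * (d * (1 + δ) * Real.logb 2 x + d + 3) * (d * (Real.log 2 + (1 + δ) * Real.log x)) <
      δ * x ^ δ := by
  have hl2 : 0 < Real.log 2 := Real.log_pos (by norm_num)
  set C1 : ℝ := d * (1 + δ) / Real.log 2 + d + 3 with hC1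
  set C2 : ℝ := d * (Real.log 2 + (1 + δ)) with hC2
  have hC10 : 0 < C1 := by positivity
  have hC20 : 0 < C2 := by positivity
  set C : ℝ := 8 * C1 * C2 with hC
  have hC0 : 0 < C := by positivity
  have ho := isLittleO_log_rpow_rpow_atTop (2 : ℝ) hδ
  have h1 := ho.bound (c := δ / (2 * C)) (by positivity)
  filter_upwards [h1, eventually_ge_atTop (Real.exp 1), eventually_gt_atTop 1] with x hx hxe hx1
  have hx0 : 0 < x := by linarith
  have hlog1 : 1 ≤ Real.log x := by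
    rw [← Real.log_exp 1]
    exact Real.log_le_log (Real.exp_pos 1) hxe
  have hxp : 0 < x ^ δ := Real.rpow_pos_of_pos hx0 δ
  rw [Real.norm_of_nonneg (by positivity), Real.norm_of_nonneg hxp.le] at hx
  have h2 : Real.log x ^ (2 : ℝ) = Real.log x * Real.log x := by
    rw [show (2 : ℝ) = ((2 : ℕ) : ℝ) by norm_num, Real.rpow_natCast]
    ring
  rw [h2] at hx
  have h3 : d * (1 + δ) * Real.logb 2 x + d + 3 ≤ C1 * Real.log x := by
    have h31 : d * (1 + δ) * Real.logb 2 x = d * (1 + δ) / Real.log 2 * Real.log x := by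
      rw [Real.logb]
      ring
    have h32 : C1 * Real.log x = d * (1 + δ) / Real.log 2 * Real.log x + (d + 3) * Real.log x := by
      rw [hC1]
      ring
    have h33 : d + 3 ≤ (d + 3) * Real.log x := by nlinarith
    linarith
  have h4 : d * (Real.log 2 + (1 + δ) * Real.log x) ≤ C2 * Real.log x := by
    have h41 : C2 * Real.log x = d * (Real.log 2 * Real.log x + (1 + δ) * Real.log x) := by
      rw [hC2]
      ring
    rw [h41]
    have h42 : Real.log 2 ≤ Real.log 2 * Real.log x := by nlinarith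
    gcongr
  have h50 : 0 ≤ d * (Real.log 2 + (1 + δ) * Real.log x) := by positivity
  have h5 : 8 * (d * (1 + δ) * Real.logb 2 x + d + 3) *
      (d * (Real.log 2 + (1 + δ) * Real.log x)) ≤ C * (Real.log x * Real.log x) := by
    have h51 : C * (Real.log x * Real.log x) =
        8 * (C1 * Real.log x) * (C2 * Real.log x) := by
      rw [hC]
      ring
    rw [h51]
    gcongr
  have h6 : C * (Real.log x * Real.log x) ≤ C * (δ / (2 * C) * x ^ δ) := by gcongr
  have h7 : C * (δ / (2 * C) * x ^ δ) = δ * x ^ δ / 2 := by field_simp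
  have h8 : 0 < δ * x ^ δ := by positivity
  linarith

/-- A good scale for all shifts `s ≤ B`. -/
theorem scale2 (f : ℕ → ℕ) (hf1 : ∀ n, 1 ≤ f n) (hmono : Monotone f) (d δ : ℝ) (hd : 0 < d)
    (hδ : 0 < δ) (hδ1 : δ ≤ 1) (hub : ∀ᶠ n : ℕ in atTop, (f n : ℝ) ≤ (n : ℝ) ^ d) :
    ∀ᶠ B : ℕ in atTop, ∃ m I : ℕ, f m ≤ 2 ^ I ∧
      (∀ s : ℕ, s ≤ B → (B : ℝ) * ((I : ℝ) + 2) * ((f (m + s) : ℝ) - f m) ≤ δ * s * f m) ∧
      (I : ℝ) ≤ d * (1 + δ) * Real.logb 2 B + d + 1 := by
  obtain ⟨n0, hn0⟩ := eventually_atTop.1 hub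
  have hkey := (tendsto_natCast_atTop_atTop (R := ℝ)).eventually (key2_eventually d δ hd hδ)
  filter_upwards [hkey, eventually_ge_atTop (n0 + 2)] with B hB hB2
  have hB2' : 2 ≤ B := by omega
  have hBr : (2 : ℝ) ≤ B := by exact_mod_cast hB2'
  have hB0 : (0 : ℝ) < B := by linarith
  set X : ℝ := (B : ℝ) ^ (1 + δ) with hX
  have hXB : (B : ℝ) ≤ X := by
    rw [hX]
    calc (B : ℝ) = (B : ℝ) ^ (1 : ℝ) := (Real.rpow_one _).symm
      _ ≤ (B : ℝ) ^ (1 + δ) := Real.rpow_le_rpow_of_exponent_le (by linarith) (by linarith)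
  set M : ℕ := ⌊X⌋₊ with hM
  have hMX : (M : ℝ) ≤ X := Nat.floor_le (by linarith)
  have hMB : B ≤ M := Nat.le_floor hXB
  have hMBr : (B : ℝ) ≤ M := by exact_mod_cast hMB
  have hM1 : (1 : ℝ) < M := by linarith
  have hM0 : (0 : ℝ) < M := by linarith
  have hM2 : X / 2 ≤ M := by
    have h := Nat.lt_floor_add_one X
    rw [← hM] at h
    linarith
  have hMcast : ((M + B : ℕ) : ℝ) = (M : ℝ) + B := by push_cast; ring
  have hN0 : (0 : ℝ) < ((M + B : ℕ) : ℝ) := by rw [hMcast]; linarith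
  have hN1 : (1 : ℝ) < ((M + B : ℕ) : ℝ) := by rw [hMcast]; linarith
  have hN2 : ((M + B : ℕ) : ℝ) ≤ 2 * X := by rw [hMcast]; linarith
  have hlogb : Real.logb 2 ((M + B : ℕ) : ℝ) ≤ 1 + (1 + δ) * Real.logb 2 B := by
    have h1 : Real.logb 2 ((M + B : ℕ) : ℝ) ≤ Real.logb 2 (2 * X) :=
      Real.logb_le_logb_of_le (by norm_num) hN0 hN2
    have h2 : Real.logb 2 (2 * X) = 1 + (1 + δ) * Real.logb 2 B := by
      rw [Real.logb_mul (by norm_num) (by positivity), Real.logb_self_eq_one (by norm_num), hX,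
        Real.logb_rpow_eq_mul_logb_of_pos hB0]
    linarith
  have hlog : Real.log ((M + B : ℕ) : ℝ) ≤ Real.log 2 + (1 + δ) * Real.log B := by
    have h1 : Real.log ((M + B : ℕ) : ℝ) ≤ Real.log (2 * X) := Real.log_le_log hN0 hN2
    have h2 : Real.log (2 * X) = Real.log 2 + (1 + δ) * Real.log B := by
      rw [Real.log_mul (by norm_num) (by positivity), hX, Real.log_rpow hB0]
    linarith
  have hlogM0 : 0 ≤ Real.logb 2 ((M + B : ℕ) : ℝ) := Real.logb_nonneg (by norm_num) hN1.le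
  set I : ℕ := ⌈d * Real.logb 2 ((M + B : ℕ) : ℝ)⌉₊ with hI
  have hI1 : (I : ℝ) < d * Real.logb 2 ((M + B : ℕ) : ℝ) + 1 :=
    Nat.ceil_lt_add_one (by positivity)
  have hI2 : (I : ℝ) ≤ d * (1 + δ) * Real.logb 2 B + d + 1 := by
    have h1 : d * Real.logb 2 ((M + B : ℕ) : ℝ) ≤ d * (1 + (1 + δ) * Real.logb 2 B) := by gcongr
    have h2 : d * (1 + (1 + δ) * Real.logb 2 B) = d * (1 + δ) * Real.logb 2 B + d := by ring
    linarith
  have hfM : (f (M + B) : ℝ) ≤ ((M + B : ℕ) : ℝ) ^ d := hn0 (M + B) (by omega)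
  have hfI : f (M + B) ≤ 2 ^ I := by
    have h1 : ((M + B : ℕ) : ℝ) ^ d ≤ (2 : ℝ) ^ I := by
      have h2 : ((M + B : ℕ) : ℝ) = (2 : ℝ) ^ (Real.logb 2 ((M + B : ℕ) : ℝ)) :=
        (Real.rpow_logb (by norm_num) (by norm_num) hN0).symm
      calc ((M + B : ℕ) : ℝ) ^ d = ((2 : ℝ) ^ (Real.logb 2 ((M + B : ℕ) : ℝ))) ^ d := by
            rw [← h2]
        _ = (2 : ℝ) ^ (d * Real.logb 2 ((M + B : ℕ) : ℝ)) := by
          rw [← Real.rpow_mul (by norm_num), mul_comm]
        _ ≤ (2 : ℝ) ^ (I : ℝ) :=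
          Real.rpow_le_rpow_of_exponent_le (by norm_num) (Nat.le_ceil _)
        _ = (2 : ℝ) ^ I := Real.rpow_natCast _ _
    exact_mod_cast hfM.trans h1
  by_contra hcon
  push Not at hcon
  have hIr : (0 : ℝ) ≤ I := Nat.cast_nonneg I
  set ε : ℝ := δ / (2 * (B * ((I : ℝ) + 2))) with hε
  have hε0 : 0 < ε := by positivity
  have hεB : ε * B ≤ 1 := by
    have h1 : ε * B = δ / (2 * ((I : ℝ) + 2)) := by
      rw [hε]
      field_simp
    rw [h1, div_le_one (by positivity)]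
    nlinarith
  have hε2 : ε ≤ 2 := by nlinarith
  have hstep : ∀ m : ℕ, m < M → ∃ s : ℕ, 1 ≤ s ∧ s ≤ B ∧ (1 + ε) ^ s * f m ≤ f (m + s) := by
    intro m hm
    have h1 : f m ≤ 2 ^ I := (hmono (by omega : m ≤ M + B)).trans hfI
    obtain ⟨s, hsB, hs⟩ : ∃ s : ℕ, s ≤ B ∧
        δ * s * f m < (B : ℝ) * ((I : ℝ) + 2) * ((f (m + s) : ℝ) - f m) := by
      by_contra h3
      push Not at h3
      exact absurd hI2 (not_le.2 (hcon m I h1 h3))
    have hs1 : 1 ≤ s := by
      rcases Nat.eq_zero_or_pos s with h | h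
      · subst h
        simp at hs
      · exact h
    refine ⟨s, hs1, hsB, ?_⟩
    have hsr : (s : ℝ) ≤ B := by exact_mod_cast hsB
    have hs0 : (0 : ℝ) ≤ s := Nat.cast_nonneg s
    have hes : ε * s ≤ 1 := by
      have : ε * s ≤ ε * B := by gcongr
      linarith
    have h2 : (1 + ε) ^ s ≤ 1 + 2 * (ε * s) := by
      have h21 : (1 + ε) ^ s ≤ Real.exp (ε * s) := by
        have h22 : 1 + ε ≤ Real.exp ε := by
          have := Real.add_one_le_exp ε
          linarith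
        calc (1 + ε) ^ s ≤ (Real.exp ε) ^ s := by gcongr
          _ = Real.exp (ε * s) := by rw [← Real.exp_nat_mul, mul_comm]
      have h23 : |Real.exp (ε * s) - 1| ≤ 2 * |ε * s| :=
        Real.abs_exp_sub_one_le (by rw [abs_of_nonneg (by positivity)]; exact hes)
      rw [abs_of_nonneg (by positivity : (0 : ℝ) ≤ ε * s)] at h23
      have h24 := (abs_le.mp h23).2
      linarith
    have h3 : 2 * (ε * s) * f m < (f (m + s) : ℝ) - f m := by
      have h31 : 2 * (ε * s) * f m = (δ * s * f m) / ((B : ℝ) * ((I : ℝ) + 2)) := by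
        rw [hε]
        field_simp
      rw [h31, div_lt_iff₀ (by positivity)]
      linarith
    have h4 : (1 + ε) ^ s * (f m : ℝ) ≤ (1 + 2 * (ε * s)) * f m := by gcongr
    have h5 : (1 + 2 * (ε * s)) * (f m : ℝ) = f m + 2 * (ε * s) * f m := by ring
    linarith
  have hpow : ∀ t : ℕ, t ≤ M → ∃ m : ℕ, t ≤ m ∧ m ≤ t + B ∧ (1 + ε) ^ m ≤ f m := by
    intro t
    induction t with
    | zero =>
      intro _
      exact ⟨0, le_rfl, by omega, by simpa using (by exact_mod_cast hf1 0 : (1 : ℝ) ≤ f 0)⟩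
    | succ t ih =>
      intro ht
      obtain ⟨m, h1, h2, h3⟩ := ih (by omega)
      rcases Nat.lt_or_ge t m with h | h
      · exact ⟨m, h, by omega, h3⟩
      · have hmt : m = t := by omega
        subst hmt
        obtain ⟨s, hs1, hsB, hs⟩ := hstep m (by omega)
        refine ⟨m + s, by omega, by omega, ?_⟩
        rw [pow_add, mul_comm]
        refine le_trans ?_ hs
        gcongr
  obtain ⟨m, hm1, hm2, hm3⟩ := hpow M le_rfl
  have h1 : (1 + ε) ^ M ≤ ((M + B : ℕ) : ℝ) ^ d := by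
    have h11 : (1 + ε) ^ M ≤ (1 + ε) ^ m := pow_le_pow_right₀ (by linarith) hm1
    have h12 : (f m : ℝ) ≤ f (M + B) := by exact_mod_cast hmono hm2
    linarith
  have h2 : (M : ℝ) * Real.log (1 + ε) ≤ d * Real.log ((M + B : ℕ) : ℝ) := by
    rw [← Real.log_rpow hN0, ← Real.log_pow]
    exact Real.log_le_log (by positivity) h1
  have h3 : ε / 2 ≤ Real.log (1 + ε) := by
    refine le_trans ?_ (Real.le_log_one_add_of_nonneg hε0.le)
    rw [div_le_div_iff₀ (by norm_num) (by positivity)]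
    nlinarith
  have h4 : (M : ℝ) * (ε / 2) ≤ d * (Real.log 2 + (1 + δ) * Real.log B) := by
    have h5 : (M : ℝ) * (ε / 2) ≤ M * Real.log (1 + ε) := by gcongr
    have h6 : d * Real.log ((M + B : ℕ) : ℝ) ≤ d * (Real.log 2 + (1 + δ) * Real.log B) := by
      gcongr
    linarith
  have h5 : X / 2 * (ε / 2) ≤ d * (Real.log 2 + (1 + δ) * Real.log B) := by
    refine le_trans ?_ h4
    gcongr
  have h6 : X = (B : ℝ) ^ δ * B := by
    rw [hX, add_comm, Real.rpow_add hB0, Real.rpow_one]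
  have h7 : X / 2 * (ε / 2) = δ * (B : ℝ) ^ δ / (8 * ((I : ℝ) + 2)) := by
    rw [h6, hε]
    field_simp
    ring
  rw [h7, div_le_iff₀ (by positivity)] at h5
  have hlogB : 0 ≤ Real.log B := Real.log_nonneg (by linarith)
  have hl2 : 0 < Real.log 2 := Real.log_pos (by norm_num)
  have h8 : d * (Real.log 2 + (1 + δ) * Real.log B) * (8 * ((I : ℝ) + 2)) ≤
      8 * (d * (1 + δ) * Real.logb 2 B + d + 3) * (d * (Real.log 2 + (1 + δ) * Real.log B)) := by
    have h9 : (I : ℝ) + 2 ≤ d * (1 + δ) * Real.logb 2 B + d + 3 := by linarith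
    calc d * (Real.log 2 + (1 + δ) * Real.log B) * (8 * ((I : ℝ) + 2))
        = 8 * ((I : ℝ) + 2) * (d * (Real.log 2 + (1 + δ) * Real.log B)) := by ring
      _ ≤ _ := by gcongr
  linarith

end Pool.Agent.Helper85.DivChain
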